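import Pool.Agent.U136.DS.Stm

/-!
# Project DS, package IND2: many independent events (greedy choice)
-/

set_option autoImplicit false

open Finset

namespace Pool.Agent.U84.DS

open Pool.Agent.N983.RT Pool.Agent.U136.DS

theorem two_inj {x y : Wv} (h : x + x = y + y) : x = y := by
  funext i
  have := congrFun h i
  simp only [Pi.add_apply] at this
  omega

theorem s_eq {x y : Wv} (h : s(x, -x) = s(y, -y)) : x = y ∨ x = -y := by
  rw [Sym2.eq_iff] at h
  rcases h with ⟨h1, -⟩ | ⟨h1, -⟩
  · exact Or.inl h1
  · exact Or.inr h1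

/-- the four `k'` for which one of `k'`, `k' + m` is `a` or `-a` -/
def four (m a : Wv) : Finset Wv := {a, -a, a - m, -a - m}

theorem four_card (m a : Wv) : (four m a).card ≤ 4 := by
  unfold four
  refine (card_insert_le _ _).trans (Nat.succ_le_succ ?_)
  refine (card_insert_le _ _).trans (Nat.succ_le_succ ?_)
  refine (card_insert_le _ _).trans (Nat.succ_le_succ ?_)
  rw [card_singleton]

/-- the `k'` in conflict with `k` -/
def conf (m k : Wv) : Finset Wv := four m k ∪ four m (k + m)

theorem conf_card (m k : Wv) : (conf m k).card ≤ 8 := by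
  unfold conf
  refine (card_union_le _ _).trans ?_
  have h2 := four_card m k
  have h3 := four_card m (k + m)
  omega

theorem self_mem_conf (m k : Wv) : k ∈ conf m k := by
  unfold conf four
  simp

theorem mem_four {m a x k' : Wv} (hx : x = k' ∨ x = k' + m) (h : x = a ∨ x = -a) :
    k' ∈ four m a := by
  have key : k' = a ∨ k' = -a ∨ k' = a - m ∨ k' = -a - m := by
    rcases hx with rfl | rfl
    · rcases h with h | h
      · exact Or.inl h
      · exact Or.inr (Or.inl h)
    · rcases h with h | h
      · right; right; left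
        exact eq_sub_of_add_eq h
      · right; right; right
        exact eq_sub_of_add_eq h
  unfold four
  simp only [mem_insert, mem_singleton]
  exact key

theorem disjoint_of_notMem {m k k' : Wv} (h : k' ∉ conf m k) :
    Disjoint (vr m k) (vr m k') := by
  rw [disjoint_left]
  intro c hc hc'
  apply h
  unfold vr at hc hc'
  simp only [mem_insert, mem_singleton] at hc hc'
  obtain ⟨a, ha, rfl⟩ : ∃ a, (a = k ∨ a = k + m) ∧ c = s(a, -a) := by
    rcases hc with h | h
    · exact ⟨k, Or.inl rfl, h⟩
    · exact ⟨k + m, Or.inr rfl, h⟩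
  obtain ⟨x, hx, hxa⟩ : ∃ x, (x = k' ∨ x = k' + m) ∧ s(a, -a) = s(x, -x) := by
    rcases hc' with h | h
    · exact ⟨k', Or.inl rfl, h⟩
    · exact ⟨k' + m, Or.inr rfl, h⟩
  have h1 := mem_four hx (s_eq hxa.symm)
  unfold conf
  rw [mem_union]
  rcases ha with rfl | rfl
  · exact Or.inl h1
  · exact Or.inr h1

theorem greedy {A : Finset Wv} (m : Wv) : ∀ s : ℕ, 9 * s ≤ A.card → ∃ T ⊆ A, T.card = s ∧
    ∀ k ∈ T, ∀ k' ∈ T, k ≠ k' → Disjoint (vr m k) (vr m k') := by
  intro s
  induction s with
  | zero =>
    intro _
    exact ⟨∅, empty_subset _, card_empty, by simp⟩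
  | succ s ih =>
    intro h
    obtain ⟨T, hTA, hT, hd⟩ := ih (by omega)
    have h1 : (T.biUnion (conf m)).card < A.card := by
      have h2 : (T.biUnion (conf m)).card ≤ T.card * 8 :=
        card_biUnion_le_card_mul _ _ _ fun k _ => conf_card m k
      rw [hT] at h2
      omega
    obtain ⟨k₀, hk₀, hk₁⟩ := exists_mem_notMem_of_card_lt_card h1
    have h3 : ∀ k ∈ T, k₀ ∉ conf m k := fun k hk h =>
      hk₁ (mem_biUnion.2 ⟨k, hk, h⟩)
    have h4 : k₀ ∉ T := fun h => h3 k₀ h (self_mem_conf m k₀)
    refine ⟨insert k₀ T, insert_subset hk₀ hTA, by rw [card_insert_of_notMem h4, hT], ?_⟩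
    intro k hk k' hk' hne
    rw [mem_insert] at hk hk'
    rcases hk with rfl | hk <;> rcases hk' with rfl | hk'
    · exact absurd rfl hne
    · exact (disjoint_of_notMem (h3 k' hk')).symm
    · exact disjoint_of_notMem (h3 k hk)
    · exact hd k hk k' hk' hne

theorem t_IND2 : S_IND2 := by
  classical
  intro A m hm hA s hs
  let B : Finset Wv := A.filter fun k => k + k = -m ∨ k + k = m + m ∨ k + k = (-m - m) + (-m - m)
  have hB : B.card ≤ 3 := by
    have h1 : (B.image fun k => k + k) ⊆ {-m, m + m, (-m - m) + (-m - m)} := by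
      intro x hx
      rw [mem_image] at hx
      obtain ⟨k, hk, rfl⟩ := hx
      simp only [B, mem_filter] at hk
      simp only [mem_insert, mem_singleton]
      exact hk.2
    have h2 : (B.image fun k => k + k).card = B.card :=
      card_image_of_injective _ fun x y h => two_inj h
    rw [← h2]
    exact (card_le_card h1).trans card_le_three
  have hcard : 9 * s ≤ (A \ B).card := by
    have := le_card_sdiff B A
    omega
  obtain ⟨T, hT, hTs, hd⟩ := greedy m s hcard
  refine ⟨T, hT.trans sdiff_subset, hTs, ?_, hd⟩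
  intro k hk
  have h1 := hT hk
  rw [mem_sdiff] at h1
  have h0 := hA k h1.1
  have h2 : ¬ (k + k = -m ∨ k + k = m + m ∨ k + k = (-m - m) + (-m - m)) := fun h =>
    h1.2 (mem_filter.2 ⟨h1.1, h⟩)
  push Not at h2
  constructor
  · unfold vr
    refine card_pair ?_
    intro h
    rcases s_eq h with h | h
    · exact hm (by simpa using h)
    · apply h2.1
      nth_rewrite 2 [h]
      abel
  · intro h
    unfold vr at h
    simp only [mem_insert, mem_singleton] at h
    rcases h with h | h
    · rcases s_eq h with h | h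
      · exact h2.2.1 (by rw [h])
      · exact h0.2 (by rw [h]; simp)
    · rcases s_eq h with h | h
      · exact h0.1 (right_eq_add.1 h)
      · apply h2.2.2
        have h6 : k + m = -m := by
          nth_rewrite 2 [h]
          rw [neg_neg]
        have h5 : k = -m - m := eq_sub_of_add_eq h6
        rw [h5]

end Pool.Agent.U84.DS
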